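import Pool.Agent.Y19.QT.MB

/-!
# The conjecture of Birch and Swinnerton-Dyer over multiquadratic fields, on average

`E : y² = x³ + a x + b` is an elliptic curve over `ℚ`, `K₀ = ℚ(√e_1, …, √e_m)` a fixed multiquadratic
field (for example `K₀ = ℚ`), and `K = K₀(√d_1, …, √d_n)` runs through the extensions of degree `2ⁿ` of
`K₀` that are generated by square roots of squarefree integers `d_i`, `|d_i| ≤ X`.  We prove, without any
hypothesis, for all `E` with `j`-invariant `0` or `1728` and for all quadratic twists of `X₀(11)` and
`X₀(14)`, and for every elliptic curve over `ℚ` whose quadratic twists are modular, that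

`∑_{|d_1|, …, |d_n| ≤ X} exp (c (rank E(K) + ord_{s=1} L(E/K, s))) ≤ C Xⁿ (log X)^A`,

so that the difference `|rank E(K) - ord_{s=1} L(E/K, s)|` is `O(log log X)` on average over all these
number fields and over every set of at least `Xⁿ / (log X)^B` of them.  (As
`rank E(K₀(√d)) = rank E(K₀) + rank E_d(K₀)`, the case `n = 1` contains the quadratic twists of `E` over
the fixed field `K₀`.)

Method: the bounds for the quadratic twists over `ℚ` (a large sieve inequality for quadratic characters
with a loss of a power of `log X` only, a mollifier and Jensen's formula), the factorisation of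
`L(E/K, s)` (comparison of the Euler products over the ring of integers of `K`), the inequality of the
ranks, and a bound for the number of tuples with a product in a given square class.
-/

set_option autoImplicit false

namespace Pool.Agent.Results.MP_32c55d_nt.AverageMultiquadratic

open Pool.Agent.Y19.QT

theorem result : (∀ a b : ℤ, Fam a b → MultiLaw a b) ∧
    ∀ a b : ℤ, 4 * a ^ 3 + 27 * b ^ 2 ≠ 0 → TwistsModular a b → MultiLaw a b :=
  ⟨fun _ _ h => multiLaw_fam h, fun _ _ hab h => multiLaw_modular hab h⟩

end Pool.Agent.Results.MP_32c55d_nt.AverageMultiquadratic
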