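import Mathlib
import Pool.Agent.Y696.XK.Fin
import Pool.Agent.Y696.XL.XKFin

/-!
# The rank part of the Birch and Swinnerton-Dyer conjecture for cubic twists over `ℚ(√-3)` and over
cubic extensions of `ℚ(√-3)`: an exact proportion

`K` is the field of third roots of unity, `E_D : y² + D y = x³`, and `D` runs through the squarefree
`D = 1` modulo `3` of `𝓞 K` whose norm is not `1` modulo `9`; there are at least `c X` such `D` of
norm at most `X`.

* `E_D(K)` is finite and `Ш(E_D / K)[3^∞] = 0` if and only if the kernel of the Laplacian of the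
  matrix of the cubic residue symbols of the prime divisors of `D` consists of the constants.
* The proportion of the `D` with this property tends to
  `∏_{i ≥ 0} (1 - 3^{-(2 i + 1)}) = 0.6390...`, the probability that a large symmetric matrix over
  the field with three elements is nonsingular.
* For each such `D` the conclusion of `S16511` holds for `E_D` over `K`, and for the curve
  `E : y² + y = x³` over `F = K(θ)`, `θ³ = D`: Mathlib's `L`-series continues analytically, and its
  order of vanishing at `1` is equal to the rank; both are `0`.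

The group `Sha` of the library is the group of the continuous cocycles of the absolute Galois group
of `K` with values in the points over an algebraic closure of `K` that are coboundaries at all the
places, modulo the coboundaries.

Joint work of the seats named in the headers of `Pool/Agent/Y703/XK`, `Pool/Agent/Y703/CT` and of
the files imported by `Pool/Agent/Y696/CTK/Fin.lean` and `Pool/Agent/Y696/CTE/Fin.lean`.
-/

set_option autoImplicit false

namespace Pool.Agent.Results.MP_32c55d_nt.ExactProportionCubicTwists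

open NumberField WeierstrassCurve
open Pool.Agent.TH841.NF.D (Sha)
open scoped Classical

/-- The curve `E_D : y² + D y = x³`. -/
def curve {F : Type} [Field F] (D : F) : WeierstrassCurve F := ⟨0, 0, D, 0, 0⟩

/-- The conclusion of `S16511` for `W` over `F`, with rank `0`: `W` is an elliptic curve, `W(F)` is
finite, and the `L`-series of `W` continues analytically from `Re s > 3 / 2` to a connected open set
that contains `1`, where its order of vanishing is equal to the rank of `W(F)`. -/
def RankZero {F : Type} [Field F] [NumberField F] (W : WeierstrassCurve F) : Prop :=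
  W.IsElliptic ∧ Finite W.toAffine.Point ∧
  ∃ (U : Set ℂ) (L : ℂ → ℂ),
    IsOpen U ∧ IsConnected U ∧ {s : ℂ | (3 / 2 : ℝ) < s.re} ⊆ U ∧ (1 : ℂ) ∈ U ∧
    AnalyticOnNhd ℂ L U ∧ (∀ s : ℂ, (3 / 2 : ℝ) < s.re → L s = W.LSeries s) ∧
    (∀ r : ℕ, r < Module.finrank ℤ W.toAffine.Point → iteratedDeriv r L 1 = 0) ∧
    iteratedDeriv (Module.finrank ℤ W.toAffine.Point) L 1 ≠ 0

variable {K : Type} [Field K] [NumberField K]

/-- `D` is squarefree and `1` modulo `3`, and its norm is not `1` modulo `9`. -/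
def InClass (D : 𝓞 K) : Prop :=
  (3 : 𝓞 K) ∣ D - 1 ∧ Squarefree D ∧ ¬ (9 : ℤ) ∣ Algebra.norm ℤ D - 1

/-- `E_D(K)` is finite and the `3`-primary part of `Ш(E_D / K)` is trivial. -/
def FiniteAndTrivial (D : 𝓞 K) : Prop :=
  Finite (curve (D : K)).toAffine.Point ∧ ∀ (n : ℕ) (x : Sha (curve (D : K))), 3 ^ n • x = 0 → x = 0

/-- `D` is the product of the primes `π i`, which are `1` modulo `3`, and the cubic residue symbol
of `π i` modulo `π j` is `ω ^ χ j i`. -/
def IsFactorization (ω D : 𝓞 K) (n : ℕ) (π : Fin n → 𝓞 K) (χ : Fin n → Fin n → ZMod 3) : Prop :=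
  (∀ i, Prime (π i) ∧ (3 : 𝓞 K) ∣ π i - 1) ∧ D = ∏ i, π i ∧
  ∀ i j, i ≠ j →
    π j ∣ π i ^ (((Algebra.norm ℤ (π j)).natAbs - 1) / 3) - ω ^ (χ j i).val

/-- The kernel of the Laplacian of `χ` over the field with three elements consists of the
constants. -/
def IsConnected {n : ℕ} (χ : Fin n → Fin n → ZMod 3) : Prop :=
  ∀ v : Fin n → ZMod 3, (∀ j, ∑ i, χ j i * (v i - v j) = 0) → ∀ i j, v i = v j

/-- `D` has a factorization, and for each one: `E_D(K)` is finite and `Ш(E_D / K)[3^∞] = 0` if and
only if the kernel of the Laplacian of the cubic residue symbols consists of the constants. -/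
def Criterion (D : 𝓞 K) : Prop :=
  (∃ (ω : 𝓞 K) (n : ℕ) (π : Fin n → 𝓞 K) (χ : Fin n → Fin n → ZMod 3),
    ω ^ 2 + ω + 1 = 0 ∧ IsFactorization ω D n π χ) ∧
  ∀ (ω : 𝓞 K) (n : ℕ) (π : Fin n → 𝓞 K) (χ : Fin n → Fin n → ZMod 3),
    ω ^ 2 + ω + 1 = 0 → IsFactorization ω D n π χ → (FiniteAndTrivial D ↔ IsConnected χ)

theorem result (K : Type) [Field K] [NumberField K] [IsCyclotomicExtension {3} ℚ K] :
    (∃ c : ℝ, 0 < c ∧ ∃ X₀ : ℕ, ∀ X : ℕ, X₀ ≤ X →
      c * X ≤ ({D : 𝓞 K | Algebra.norm ℤ D ≤ X ∧ InClass D}.ncard : ℝ)) ∧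
    (∀ D : 𝓞 K, InClass D → Criterion D ∧
      (∃ (F : Type) (_ : Field F) (_ : NumberField F) (_ : Algebra K F) (θ : F),
        Module.finrank K F = 3 ∧ θ ^ 3 = algebraMap K F D) ∧
      (FiniteAndTrivial D → RankZero (curve (D : K)) ∧
        ∀ (F : Type) [Field F] [NumberField F] [Algebra K F] (θ : F),
          Module.finrank K F = 3 → θ ^ 3 = algebraMap K F D → RankZero (curve (1 : F)))) ∧
    Filter.Tendsto (fun X : ℕ =>
      ({D : 𝓞 K | Algebra.norm ℤ D ≤ X ∧ InClass D ∧ FiniteAndTrivial D}.ncard : ℝ) /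
        ({D : 𝓞 K | Algebra.norm ℤ D ≤ X ∧ InClass D}.ncard : ℝ)) Filter.atTop
      (nhds (∏' i : ℕ, (1 - (1 / 3 : ℝ) ^ (2 * i + 1)))) ∧
    (0.639 : ℝ) < ∏' i : ℕ, (1 - (1 / 3 : ℝ) ^ (2 * i + 1)) ∧
    ∏' i : ℕ, (1 - (1 / 3 : ℝ) ^ (2 * i + 1)) < 0.6391 :=
  Pool.Agent.Y696.XK.final Pool.Agent.XLK.t_DEN Pool.Agent.XLK.t_C9 K

end Pool.Agent.Results.MP_32c55d_nt.ExactProportionCubicTwists
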