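import Pool.Agent.Y682.YS.Prod

/-!
# The curve `X_0(14)` over the fields `K(√d_1, …, √d_n)`, `K` a layer of the cyclotomic `ℤ₃`-extension:
# Birch and Swinnerton-Dyer in rank zero and the 2-primary part of the Tate-Shafarevich group

`E` is the modular curve `X_0(14)`, `y² + xy + y = x³ + 4x - 6`.  We consider the squarefree `D`,
positive and negative, `D = 1` modulo `4`, `D` a square modulo `7`, whose prime divisors split
completely in `ℚ(i, √2, √-7)` or are inert in `ℚ(√2)` and in `ℚ(√-7)`, and are inert in the cyclotomic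
`ℤ₃`-extension of `ℚ`.  A field `ℚ(√d_1, …, √d_n)` of degree `2^n`, real or imaginary, is in the family
if an explicit matrix over `𝔽₂` is nonsingular for each of its `2^n` discriminants.

For each of these fields and each layer `K` of the cyclotomic `ℤ₃`-extension, and
`F = K(√d_1, …, √d_n)`: the function `L(E/F, s)` is entire, its order of vanishing at `s = 1` and the
rank of `E(F)` are zero, and `Ш(E/F)[2^∞]` is finite and killed by `2^n`.  This applies to all the
fields whose discriminants have no prime factor that is `1` modulo `8`, and for `n = 1` to a proportion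
of exactly `c = ∏_{i ≥ 0} (1 - 2^{-(2 i + 1)}) = 0.419...` of the real, and also of the imaginary,
quadratic fields of the class.

The proof.  (1) The comparison of the orders of vanishing and of the ranks over `F` and over
`ℚ(√d_1, …, √d_n)` (see the file `MultiquadraticTowers` of problem `MP_cd906c_nt`); over the latter field
the 2-converse theorem for the twists of `E`, proved with Gross sums and descent (see the file
`TwoConverseMultiquadratic` of problem `MP_ae0bd0_nt`).  (2) For each of the
`2^n` twists, `Ш(E_D/K)[2^∞] = 0` by the descent with the isogenies of degree two over `K`.  (3) The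
corestriction of the classes of `Ш` at all the places, real ones included: on `Ш(E/F)` the number `2^n`
is the sum of the `2^n` composites of the transfer to the twists over `K` and the restriction.  (4) The
distribution of the corank of the matrix.
-/

set_option autoImplicit false

open NumberField IsDedekindDomain Filter Topology

namespace Pool.Agent.Results.MP_32c55d_nt.LayersMultiquadratic

open scoped Classical

open Pool.Agent.TH841.NF.D (Sha)

/-- The elliptic curve `X_0(14)`, with its global minimal equation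
`y² + x y + y = x³ + 4 x - 6`. -/
def E : WeierstrassCurve ℤ := ⟨1, 0, 1, 4, -6⟩

/-- The curve given by the equation of `W` over the ring `R`. -/
abbrev base (W : WeierstrassCurve ℤ) (R : Type) [CommRing R] : WeierstrassCurve R :=
  W.map (Int.castRingHom R)

/-- The number of the affine points `(x, y)` over the ring `R`. -/
noncomputable def pts (W : WeierstrassCurve ℤ) (R : Type) [CommRing R] : ℕ :=
  Nat.card {P : R × R // (base W R).toAffine.Equation P.1 P.2}

section

variable {K : Type} [Field K] [NumberField K]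

/-- `a_v = N v + 1 - #W(k_v)`, the points over the residue field `k_v` counted with the point at
infinity. -/
noncomputable def a (W : WeierstrassCurve ℤ) (v : HeightOneSpectrum (𝓞 K)) : ℤ :=
  (Ideal.absNorm v.asIdeal : ℤ) - pts W (𝓞 K ⧸ v.asIdeal)

/-- The Euler factor of `L(W/K, s)` at `v` : `(1 - a_v N v^(-s) + N v^(1 - 2 s))⁻¹` if the
discriminant is a unit at `v`, and `(1 - a_v N v^(-s))⁻¹` otherwise. -/
noncomputable def factor (W : WeierstrassCurve ℤ) (s : ℂ) (v : HeightOneSpectrum (𝓞 K)) : ℂ :=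
  (1 - (a W v : ℂ) * (Ideal.absNorm v.asIdeal : ℂ) ^ (-s) +
    if ((W.Δ : ℤ) : 𝓞 K) ∈ v.asIdeal then 0 else (Ideal.absNorm v.asIdeal : ℂ) ^ (1 - 2 * s))⁻¹

end

section

variable (K : Type) [Field K] [NumberField K]

/-- The rank of the group of the points over `K`. -/
noncomputable def rank (W : WeierstrassCurve ℤ) : ℕ := Module.finrank ℤ (base W K).toAffine.Point

/-- The 2-primary part of the Tate-Shafarevich group over `K`. -/
noncomputable abbrev Sha2 (W : WeierstrassCurve ℤ) : AddSubgroup (Sha (base W K)) :=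
  AddCommGroup.primaryComponent (Sha (base W K)) 2

end

/-- The subfield `ℚ(√d_1, …, √d_n)` of `ℂ`. -/
noncomputable def multiquadratic {n : ℕ} (d : Fin n → ℤ) : IntermediateField ℚ ℂ :=
  IntermediateField.adjoin ℚ {z : ℂ | ∃ i, z ^ 2 = (d i : ℂ)}

/-- The subfield of `ℂ` generated by the `q`-th roots of unity. -/
noncomputable def cyclotomic (q : ℕ) : IntermediateField ℚ ℂ :=
  IntermediateField.adjoin ℚ {z : ℂ | z ^ q = 1}

/-! ### The class of the discriminants -/

/-- primes which split completely in `ℚ(i, √2, √-7)` -/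
def Split (p : ℕ) : Prop := p.Prime ∧ p % 8 = 1 ∧ (p % 7 = 1 ∨ p % 7 = 2 ∨ p % 7 = 4)

/-- primes inert in `ℚ(√2)` and in `ℚ(√-7)` -/
def Inert (q : ℕ) : Prop :=
  q.Prime ∧ (q % 8 = 3 ∨ q % 8 = 5) ∧ (q % 7 = 3 ∨ q % 7 = 5 ∨ q % 7 = 6)

/-- the class of discriminants; the condition modulo `9` means that the prime is inert in all the
layers of the cyclotomic `ℤ₃`-extension of `ℚ` -/
def Adm (D : ℤ) : Prop := Squarefree D ∧ D % 4 = 1 ∧ (D % 7 = 1 ∨ D % 7 = 2 ∨ D % 7 = 4) ∧
  ∀ p : ℕ, p.Prime → (p : ℤ) ∣ D →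
    (Split p ∨ Inert p) ∧ (p % 9 = 2 ∨ p % 9 = 4 ∨ p % 9 = 5 ∨ p % 9 = 7)

/-- the prime factors `≡ 1 mod 8` of `D` -/
def S (D : ℤ) : Finset ℕ := D.natAbs.primeFactors.filter fun p => p % 8 = 1

/-- the matrix over `𝔽₂` with rows and columns indexed by `S D`: off the diagonal the
entry at `(p, p')` is `1` if `p'` is not a square modulo `p` and `0` otherwise; on the diagonal it
is the number of the prime factors of `D` different from `p` which are not squares modulo `p`, plus
`1` if the number of the points of `X_0(14)` modulo `p` is not divisible by `8` -/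
noncomputable def R (D : ℤ) : Matrix (S D) (S D) (ZMod 2) := Matrix.of fun i j =>
  if i = j then
    (((D.natAbs.primeFactors.filter fun r : ℕ => r ≠ (i : ℕ) ∧
      ¬ IsSquare (r : ZMod (i : ℕ))).card : ZMod 2) +
        if 8 ∣ pts E (ZMod (i : ℕ)) + 1 then 0 else 1)
  else if IsSquare (((j : ℕ)) : ZMod (i : ℕ)) then 0 else 1

/-- The discriminants `d_1, …, d_n` are in the class, they are independent modulo squares, and for each
of the `2^n` products the matrix of its squarefree part `D` is nonsingular. -/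
def Family {n : ℕ} (d : Fin n → ℤ) : Prop := (∀ i, Adm (d i)) ∧
  (∀ T : Finset (Fin n), T.Nonempty → ¬ IsSquare (∏ i ∈ T, d i)) ∧
  ∀ (T : Finset (Fin n)) (D k : ℤ), Adm D → ∏ i ∈ T, d i = D * k ^ 2 → (R D).det ≠ 0

/-- The `L`-function of `E` over `F` is entire, its order of vanishing at `s = 1` and the rank of
`E(F)` are zero, and the group `Ш(E/F)[2^∞]` is finite and killed by `2^n`. -/
def Holds (F : Type) [Field F] [NumberField F] (n : ℕ) : Prop :=
  (∃ L : ℂ → ℂ, Differentiable ℂ L ∧
    (∀ s : ℂ, 3 / 2 < s.re → HasProd (factor (K := F) E s) (L s)) ∧ L 1 ≠ 0 ∧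
    analyticOrderAt L 1 = rank F E) ∧
  rank F E = 0 ∧ Finite (Sha2 F E) ∧ ∀ x ∈ Sha2 F E, 2 ^ n • x = 0

/-- `Holds F n` for `F = K(√d_1, …, √d_n)` and all the layers `K` of the cyclotomic `ℤ₃`-extension of
`ℚ` (`K` is a subfield of odd degree of a `3 ^ (m + 1)`-th cyclotomic field). -/
def AllLayers {n : ℕ} (d : Fin n → ℤ) : Prop :=
  ∀ (m : ℕ) (K F : IntermediateField ℚ ℂ) [NumberField K] [NumberField F],
    K ≤ cyclotomic (3 ^ (m + 1)) → Odd (Module.finrank ℚ K) → F = multiquadratic d ⊔ K →
    Holds F n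

/-- the number of the integers `D` with `|D| ≤ X` and `Q D` -/
noncomputable def count (Q : ℤ → Prop) (X : ℕ) : ℕ := Nat.card {D : ℤ // |D| ≤ X ∧ Q D}

/-- `c = ∏_{i ≥ 0} (1 - 2^{-(2 i + 1)})` -/
noncomputable def cc : ℝ := ∏' i : ℕ, (1 - (1 / 2 : ℝ) ^ (2 * i + 1))

/-- the `D` with `Q D` have the proportion `c` among the `D` of the class of the sign of `s`, ordered
by absolute value -/
def Proportion (Q : ℤ → Prop) (s : ℤ) (c : ℝ) : Prop :=
  Tendsto (fun X : ℕ => (count (fun D => Adm D ∧ 0 < s * D ∧ Q D) X : ℝ) /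
    (count (fun D => Adm D ∧ 0 < s * D) X : ℝ)) atTop (𝓝 c)

lemma E_disc : E.Δ = -21952 := by
  unfold E WeierstrassCurve.Δ WeierstrassCurve.b₂ WeierstrassCurve.b₄ WeierstrassCurve.b₆
    WeierstrassCurve.b₈
  norm_num

lemma disc_mem {K : Type} [Field K] [NumberField K] (v : HeightOneSpectrum (𝓞 K)) :
    ((E.Δ : ℤ) : 𝓞 K) ∈ v.asIdeal ↔ ((14 : ℤ) : 𝓞 K) ∈ v.asIdeal := by
  have h2 : ((E.Δ : ℤ) : 𝓞 K) = -(((14 : ℤ) : 𝓞 K) ^ 3 * 8) := by
    rw [E_disc]; push_cast; norm_num
  have h3 : ((14 : ℤ) : 𝓞 K) = 2 * 7 := by push_cast; norm_num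
  rw [h2, neg_mem_iff]
  constructor
  · intro h
    rcases v.isPrime.mem_or_mem h with h | h
    · exact v.isPrime.mem_of_pow_mem 3 h
    · rw [show (8 : 𝓞 K) = 2 ^ 3 by norm_num] at h
      rw [h3]
      exact Ideal.mul_mem_right _ _ (v.isPrime.mem_of_pow_mem 3 h)
  · intro h
    exact Ideal.mul_mem_right _ _ (Ideal.pow_mem_of_mem _ h 3 (by norm_num))

lemma factor_eq {K : Type} [Field K] [NumberField K] (s : ℂ) :
    factor (K := K) E s = Pool.Agent.Y682.XT.fE (K := K) s := by
  funext v
  have h1 : a E v = Pool.Agent.Y682.XT.av v := rfl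
  unfold factor Pool.Agent.Y682.XT.fE
  rw [h1]
  simp only [disc_mem]

lemma rank_eq (F : Type) [Field F] [NumberField F] : rank F E = Pool.Agent.Y682.XD.RR F 1 := by
  rw [← Pool.Agent.Y682.XD.rank_E F]
  rfl

lemma adm_iff (D : ℤ) : Adm D ↔ (Pool.Agent.Y687.MQ.AdmD D ∧ Pool.Agent.Y682.YQ.H9 D) := by
  constructor
  · rintro ⟨h1, h2, h3, h4⟩
    refine ⟨⟨h1, h2, h3, fun p hp hd => ⟨?_, (h4 p hp hd).1⟩⟩, fun p hp hd => (h4 p hp hd).2⟩
    rintro rfl
    have := (h4 3 hp hd).2
    omega
  · rintro ⟨⟨h1, h2, h3, h4⟩, h5⟩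
    exact ⟨h1, h2, h3, fun p hp hd => ⟨(h4 p hp hd).2, h5 p hp hd⟩⟩

lemma mat_eq (D : ℤ) (hD : Adm D) : R D = Pool.Agent.Y687.MQ.matD D := by
  have hS := (Pool.Agent.Y687.MQ.of_admD ((adm_iff D).1 hD).1).1
  unfold R Pool.Agent.Y687.MQ.matD
  ext i j
  simp only [Matrix.of_apply]
  have hi := hS i.1 i.2
  have h8 := hi.2.1
  have h7 := hi.2.2
  have e : pts E (ZMod (i : ℕ)) + 1 = Pool.Agent.Y687.NN 1 (i : ℕ) := by
    have h1 := Pool.Agent.Z705.cnt_affCountZ (D := 1) hi.1 (by omega) (by omega) (by norm_num) (by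
      intro h
      rw [Int.natAbs_one, Nat.dvd_one] at h
      exact hi.1.one_lt.ne' h)
    unfold Pool.Agent.Y687.NN
    rw [Nat.cast_one, h1]
    rfl
  rw [e]
  rfl

lemma family_all {n : ℕ} (d : Fin n → ℤ) (h : Family d) : AllLayers d := by
  obtain ⟨hA, hI, hP⟩ := h
  have hg : Pool.Agent.Y687.MQ.AdT Pool.Agent.Y687.MQ.ClG 1 d := by
    intro T
    obtain ⟨C, k, h1, h2, h3, h4, -⟩ := Pool.Agent.Y682.YS.prodD d
      (fun i => ((adm_iff _).1 (hA i)).1) (fun i => ((adm_iff _).1 (hA i)).2) T
    have hC : Adm C := (adm_iff C).2 ⟨h1, h2⟩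
    have h5 := hP T C k hC h4
    rw [mat_eq C hC] at h5
    obtain ⟨P, T', h6, h7⟩ := Pool.Agent.Y687.MQ.good_iff.1 ⟨h1, h5⟩
    exact ⟨P, T', k, h6, h3, by rw [one_mul, h4, h7]⟩
  have hd : ∀ i, d i ≠ 0 := fun i h => by
    have := (hA i).2.1
    rw [h] at this
    norm_num at this
  intro m K F _ _ hK hodd hF
  have hle : multiquadratic d ≤ F := by rw [hF]; exact le_sup_left
  have hfd : FiniteDimensional ℚ (multiquadratic d) :=
    FiniteDimensional.of_injective (IntermediateField.inclusion hle).toLinearMap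
      (IntermediateField.inclusion_injective hle)
  have hnf : NumberField (multiquadratic d) := by
    refine @NumberField.mk _ _ inferInstance ?_
    convert hfd
  obtain ⟨-, L, -, h1, -, h2, -, h3, -, h4⟩ := Pool.Agent.Y682.YS.main d
    (fun i => ((adm_iff _).1 (hA i)).1) (fun i => ((adm_iff _).1 (hA i)).2) hI hg m K hK hodd
    (multiquadratic d) F rfl hF
  obtain ⟨h5, h6⟩ := Pool.Agent.Y682.YS.sha_C d (fun i => ((adm_iff _).1 (hA i)).2) hd hg m K hK hodd
    (multiquadratic d) F rfl hF
  have hr : rank F E = 0 := by rw [rank_eq, h4]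
  refine ⟨⟨L, h1, fun s hs => ?_, h3, ?_⟩, hr, h5, ?_⟩
  · rw [factor_eq]
    exact h2 s hs
  · rw [hr]
    exact analyticOrderAt_eq_zero.2 (Or.inr h3)
  · rintro x ⟨k, hk⟩
    exact h6 k x hk

/-- **Main theorem.**
(1) If the field `ℚ(√d_1, …, √d_n)` is in the family, then, for each layer `K` of the cyclotomic
`ℤ₃`-extension of `ℚ` and `F = K(√d_1, …, √d_n)`: the function `L(E/F, s)` is entire, its order of
vanishing at `s = 1` is the rank of `E(F)`, which is zero, and the 2-primary part of `Ш(E/F)` is finite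
and killed by `2^n`.
(2) The fields whose discriminants are in the class and have no prime factor which is `1` modulo `8` are
in the family.
(3) If `D` is in the class and the matrix `R D` is nonsingular, the conclusion holds for `K(√D)` for all
layers `K`.  The proportion of these `D` among the positive `D` of the class, ordered by absolute
value, is `c`, and this is also the proportion among the negative ones; `0.4194 < c < 0.4195`. -/
theorem result :
    (∀ (n : ℕ) (d : Fin n → ℤ), Family d → AllLayers d) ∧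
    (∀ (n : ℕ) (d : Fin n → ℤ), (∀ i, Adm (d i)) →
      (∀ T : Finset (Fin n), T.Nonempty → ¬ IsSquare (∏ i ∈ T, d i)) →
      (∀ (i : Fin n) (p : ℕ), p.Prime → (p : ℤ) ∣ d i → p % 8 ≠ 1) → Family d) ∧
    (∀ D : ℤ, Adm D → (R D).det ≠ 0 → AllLayers (fun _ : Fin 1 => D)) ∧
    (∀ s : ℤ, (s = 1 ∨ s = -1) → Proportion (fun D => (R D).det ≠ 0) s cc) ∧
    0.4194 < cc ∧ cc < 0.4195 := by
  have hR1 : (R 1).det ≠ 0 := by
    have hS : IsEmpty (S 1) := by
      constructor
      rintro ⟨p, hp⟩
      simp [S] at hp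
    rw [Matrix.det_isEmpty]
    exact one_ne_zero
  refine ⟨fun n d => family_all d, fun n d hA hI h8 => ⟨hA, hI, fun T D k hD he => ?_⟩,
    fun D hD hdet => ?_, fun s hs => ?_, Pool.Agent.Y948.CQ.t_C2.2.2.2⟩
  · have hS : IsEmpty (S D) := by
      constructor
      rintro ⟨p, hp⟩
      unfold S at hp
      rw [Finset.mem_filter, Nat.mem_primeFactors] at hp
      obtain ⟨⟨hp1, hp2, -⟩, hp3⟩ := hp
      have h1 : (p : ℤ) ∣ ∏ i ∈ T, d i := by
        rw [he]
        exact Dvd.dvd.mul_right (Int.natCast_dvd.2 hp2) _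
      obtain ⟨i, -, hi⟩ := (Nat.prime_iff_prime_int.1 hp1).exists_mem_finset_dvd h1
      exact h8 i p hp1 hi hp3
    rw [Matrix.det_isEmpty]
    exact one_ne_zero
  · by_cases h1 : D = 1
    · subst h1
      have h0 : AllLayers (fun i : Fin 0 => (1 : ℤ)) := family_all _ ⟨fun i => i.elim0,
        fun T hT => by
          obtain ⟨i, -⟩ := hT
          exact i.elim0, fun T D k hD he => by
          have hT : T = ∅ := by
            ext i
            exact i.elim0
          rw [hT, Finset.prod_empty] at he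
          have hD1 : D = 1 := by
            have hu : IsUnit D := isUnit_of_dvd_one (Dvd.intro _ he.symm)
            rcases Int.isUnit_iff.1 hu with h | h
            · exact h
            · exfalso
              have := hD.2.1
              rw [h] at this
              norm_num at this
          rw [hD1]
          exact hR1⟩
      intro m K F _ _ hK hodd hF
      have e1 : multiquadratic (fun _ : Fin 1 => (1 : ℤ)) = ⊥ := by
        unfold multiquadratic
        rw [IntermediateField.adjoin_eq_bot_iff]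
        rintro z ⟨i, hz⟩
        rw [Int.cast_one] at hz
        rcases sq_eq_sq_iff_eq_or_eq_neg.1 (hz.trans (one_pow 2).symm) with h | h
        · rw [h]
          exact one_mem _
        · rw [h]
          exact neg_mem (one_mem _)
      have e2 : multiquadratic (fun _ : Fin 0 => (1 : ℤ)) = ⊥ := by
        unfold multiquadratic
        rw [IntermediateField.adjoin_eq_bot_iff]
        rintro z ⟨i, hz⟩
        exact i.elim0
      obtain ⟨k1, k2, k3, k4⟩ := h0 m K F hK hodd (by rw [e2, ← e1]; exact hF)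
      refine ⟨k1, k2, k3, fun x hx => ?_⟩
      have := k4 x hx
      rw [pow_zero, one_smul] at this
      rw [this, smul_zero]
    · have hcard : ∀ T : Finset (Fin 1), T.card = 0 ∨ T.card = 1 := fun T => by
        have := Finset.card_le_univ T
        rw [Fintype.card_fin] at this
        omega
      have hsq : ∀ (A B k : ℤ), Squarefree A → A % 4 = 1 → B % 4 = 1 → A = B * k ^ 2 → A = B := by
        intro A B k hA _ _ he
        have hu : IsUnit k := hA k (by rw [he, pow_two]; exact Dvd.intro_left _ rfl)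
        rcases Int.isUnit_iff.1 hu with h | h <;> rw [he, h] <;> norm_num
      refine family_all _ ⟨fun _ => hD, fun T hT hs => ?_, fun T D' k hD' he => ?_⟩
      · rw [Finset.prod_const] at hs
        rcases hcard T with h | h
        · rw [Finset.card_eq_zero] at h
          exact hT.ne_empty h
        · rw [h, pow_one] at hs
          obtain ⟨r, hr⟩ := hs
          exact h1 (hsq D 1 r hD.1 hD.2.1 (by norm_num) (by rw [hr]; ring))
      · rw [Finset.prod_const] at he
        rcases hcard T with h | h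
        · rw [h, pow_zero] at he
          rw [← hsq 1 D' k squarefree_one (by norm_num) hD'.2.1 he]
          exact hR1
        · rw [h, pow_one] at he
          rw [← hsq D D' k hD.1 hD.2.1 hD'.2.1 he]
          exact hdet
  · have h := Pool.Agent.Y682.YQ.prop9 hs (fun D => (R D).det ≠ 0) fun D h1 h2 => by
      rw [mat_eq D ((adm_iff D).2 ⟨h1, h2⟩)]
      exact Iff.rfl
    refine h.congr fun X => ?_
    have e1 : Pool.Agent.Y682.YQ.CA.count (fun D => Pool.Agent.Y687.MQ.AdmD D ∧ 0 < s * D ∧
        (Pool.Agent.Y682.YQ.H9 D ∧ (R D).det ≠ 0)) X =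
        count (fun D => Adm D ∧ 0 < s * D ∧ (R D).det ≠ 0) X := by
      unfold Pool.Agent.Y682.YQ.CA.count count
      refine Nat.card_congr (Equiv.subtypeEquivRight fun D => ?_)
      show (|D| ≤ (X : ℤ) ∧ (Pool.Agent.Y687.MQ.AdmD D ∧ 0 < s * D ∧
        (Pool.Agent.Y682.YQ.H9 D ∧ (R D).det ≠ 0))) ↔
          (|D| ≤ (X : ℤ) ∧ (Adm D ∧ 0 < s * D ∧ (R D).det ≠ 0))
      rw [adm_iff D]
      tauto
    have e2 : Pool.Agent.Y682.YQ.CA.count (fun D => Pool.Agent.Y687.MQ.AdmD D ∧ 0 < s * D ∧
        Pool.Agent.Y682.YQ.H9 D) X = count (fun D => Adm D ∧ 0 < s * D) X := by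
      unfold Pool.Agent.Y682.YQ.CA.count count
      refine Nat.card_congr (Equiv.subtypeEquivRight fun D => ?_)
      show (|D| ≤ (X : ℤ) ∧ (Pool.Agent.Y687.MQ.AdmD D ∧ 0 < s * D ∧ Pool.Agent.Y682.YQ.H9 D)) ↔
        (|D| ≤ (X : ℤ) ∧ (Adm D ∧ 0 < s * D))
      rw [adm_iff D]
      tauto
    rw [e1, e2]

end Pool.Agent.Results.MP_32c55d_nt.LayersMultiquadratic
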