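import Pool.Agent.Y688.K6

/-!
# The Birch and Swinnerton-Dyer rank conjecture for `y² + y = x³` over extensions of `ℚ(√-3, √-7)`

Let `F = ℚ(√-3, √-7)` (class number `1`) and let `K/F` be a Galois extension of `2`-power degree in
which only primes `v` of `F` ramify which divide `3` or have the property that `2` is not a cube
modulo `v`.  Assume that `Gal(K/F)` has exponent `2`, or that `K/F` has an Artin map modulo an ideal
composed of such primes.  For `E : y² + y = x³` we prove the conclusion of the frozen statement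
`S16511` for the pair `(K, E)`, and moreover that `E(K)` is finite.

Proof.  *Mordell-Weil side.*  Two-descent on `y² = x³ + 16` over the Galois closure `L/ℚ` of `K`, whose
Galois group is a `2`-group: if `E(L)` were not `2`-divisible, a fixed-point argument for the
`2`-group gives a class of `L(∛2)ˣ` modulo squares that comes from `ℚ(∛2)ˣ`; the ramification
conditions and the arithmetic of `ℤ[∛2]` leave only the unit `∛2 - 1`, which is excluded at a place
above `2`.  *Reciprocity.*  When `Gal(K/F)` has exponent `2`, each of its characters is a quadratic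
symbol `(· / d)` over `F`: this is the quadratic reciprocity law over `F`, which is proved from the
positivity of the Gauss sums of the trace forms `Tr(c x² / δ)` (they have signature `0`).
*Analytic side.*  `L(E/K, s) = ∏_X L(E/F, X, s)` up to finitely many Euler factors, `X` running
through the characters of `Gal(K/F)`; each `L(E/F, X, s)` is entire and non-zero at `s = 1`, by
unfolding over the units of `F` and a congruence modulo a place above `2` for the resulting elliptic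
Dedekind sums.
-/

set_option autoImplicit false

open NumberField IsDedekindDomain
open scoped Classical

namespace Pool.Agent.Results.MP_32c55d_nt.MultiquadraticRank

/-- `art` is an Artin map modulo `𝔪` of the Galois extension `K/F` (`F` of class number `1`, without
real places): it is surjective, trivial on the units of `𝓞 F`, the inertia groups in `Gal(K/F)` of the
primes of `K` not dividing `𝔪` are trivial, and the class of a prime element `α` of `𝓞 F` not
dividing `𝔪` acts as a Frobenius automorphism at every prime of `K` above `α`. -/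
structure IsArtin {F K : Type} [Field F] [NumberField F] [Field K] [NumberField K] [Algebra F K]
    (𝔪 : Ideal (𝓞 F)) (art : (𝓞 F ⧸ 𝔪)ˣ →* (K ≃ₐ[F] K)) : Prop where
  surj : Function.Surjective art
  units : ∀ (e : (𝓞 F)ˣ) (u : (𝓞 F ⧸ 𝔪)ˣ), (u : 𝓞 F ⧸ 𝔪) = Ideal.Quotient.mk 𝔪 (e : 𝓞 F) → art u = 1
  unram : ∀ w : HeightOneSpectrum (𝓞 K), ¬ 𝔪 ≤ w.asIdeal.under (𝓞 F) →
    ∀ σ : K ≃ₐ[F] K, (∀ x : 𝓞 K, σ • x - x ∈ w.asIdeal) → σ = 1
  frob : ∀ (α : 𝓞 F) (u : (𝓞 F ⧸ 𝔪)ˣ), Prime α → (u : 𝓞 F ⧸ 𝔪) = Ideal.Quotient.mk 𝔪 α →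
    ∀ w : HeightOneSpectrum (𝓞 K), algebraMap (𝓞 F) (𝓞 K) α ∈ w.asIdeal →
      ∀ x : 𝓞 K, art u • x - x ^ Ideal.absNorm (Ideal.span {α}) ∈ w.asIdeal

/-- the condition on the ramified primes: `p ∣ 3`, or `2` is not a cube modulo `p` -/
def Good {F : Type} [Field F] [NumberField F] (p : Ideal (𝓞 F)) : Prop :=
  (3 : 𝓞 F) ∈ p ∨ ∀ α : 𝓞 F, α ^ 3 - 2 ∉ p

/-- **Main theorem.**  Let `F = ℚ(√-3, √-7)`, let `K/F` be a Galois extension of degree `2 ^ n`
all of whose ramified primes are good (every non-trivial element of an inertia group lies over a good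
prime), and suppose that `Gal(K/F)` has exponent `2` or that `K/F` has an Artin map modulo an ideal
`𝔪 ≠ 0` with only good prime divisors.  Let `E : y² + y = x³`.  Then `E(K)` is finite, and the
L-series of `E/K` continues analytically from `Re s > 3/2` to a connected open set containing `1`,
where its order of vanishing is equal to the rank of `E(K)`. -/
theorem result : ∀ (F K : Type) [Field F] [NumberField F] [Field K] [NumberField K] [Algebra F K]
    [IsGalois F K], Module.finrank ℚ F = 4 → (∃ a : F, a ^ 2 = -3) → (∃ b : F, b ^ 2 = -7) →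
    (∃ n : ℕ, Module.finrank F K = 2 ^ n) →
    (∀ (w : HeightOneSpectrum (𝓞 K)) (σ : K ≃ₐ[F] K), (∀ x : 𝓞 K, σ • x - x ∈ w.asIdeal) → σ ≠ 1 →
      Good (w.asIdeal.under (𝓞 F))) →
    ((∀ σ : K ≃ₐ[F] K, σ * σ = 1) ∨
      ∃ 𝔪 : Ideal (𝓞 F), 𝔪 ≠ ⊥ ∧ (∀ v : HeightOneSpectrum (𝓞 F), 𝔪 ≤ v.asIdeal → Good v.asIdeal) ∧
        ∃ art : (𝓞 F ⧸ 𝔪)ˣ →* (K ≃ₐ[F] K), IsArtin 𝔪 art) →
    ∀ E : WeierstrassCurve K, E = ⟨0, 0, 1, 0, 0⟩ →
      Finite E.toAffine.Point ∧
      ∃ (U : Set ℂ) (Φ : ℂ → ℂ),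
        IsOpen U ∧ IsConnected U ∧ {s : ℂ | (3 / 2 : ℝ) < s.re} ⊆ U ∧ (1 : ℂ) ∈ U ∧
        AnalyticOnNhd ℂ Φ U ∧ (∀ s : ℂ, (3 / 2 : ℝ) < s.re → Φ s = E.LSeries s) ∧
        (∀ r : ℕ, r < Module.finrank ℤ E.toAffine.Point → iteratedDeriv r Φ 1 = 0) ∧
        iteratedDeriv (Module.finrank ℤ E.toAffine.Point) Φ 1 ≠ 0 := by
  intro F K _ _ _ _ _ _ hF ha hb hn hram hcase E hE
  obtain ⟨n, hn⟩ := hn
  subst hE
  have key : Finite (Pool.Agent.Y688.E27 K).toAffine.Point ∧
      ∃ (U : Set ℂ) (Φ : ℂ → ℂ), IsOpen U ∧ IsConnected U ∧ {s : ℂ | (3 / 2 : ℝ) < s.re} ⊆ U ∧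
      (1 : ℂ) ∈ U ∧ AnalyticOnNhd ℂ Φ U ∧
      (∀ s : ℂ, (3 / 2 : ℝ) < s.re → Φ s = (Pool.Agent.Y688.E27 K).LSeries s) ∧ Φ 1 ≠ 0 := by
    rcases hcase with hsq | ⟨𝔪, h𝔪, hcub, art, hart⟩
    · exact Pool.Agent.Y688.bsd_rank' hF ha hb hsq hram
    · have H : Pool.Agent.Y688.IsArtin 𝔪 art := ⟨hart.surj, hart.units, hart.unram, hart.frob⟩
      exact Pool.Agent.Y688.bsd_rank hF ha hb h𝔪 H hcub hn
  obtain ⟨h1, U, Φ, h2, h3, h4, h5, h6, h7, h8⟩ := key
  have hfin : Finite (WeierstrassCurve.toAffine (⟨0, 0, 1, 0, 0⟩ : WeierstrassCurve K)).Point := h1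
  have h0 : Module.finrank ℤ (WeierstrassCurve.toAffine (⟨0, 0, 1, 0, 0⟩ : WeierstrassCurve K)).Point = 0 :=
    Pool.Agent.Y688.finrank_fin _
  refine ⟨hfin, U, Φ, h2, h3, h4, h5, h6, h7, ?_, ?_⟩
  · intro r hr
    rw [h0] at hr
    exact absurd hr (Nat.not_lt_zero r)
  · rw [h0, iteratedDeriv_zero]
    exact h8

end Pool.Agent.Results.MP_32c55d_nt.MultiquadraticRank
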